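import Pool.Agent.Helper38.RS.Goals2

/-!
# RS-PRM (MP_fc6b1e_nt): permutation modules modulo 2
-/

namespace Pool.Agent.Helper56.RS

open Polynomial Pool.Agent.Helper38.RS

/-- The shift operator. -/
noncomputable def shift {Y : Type} (σ : Equiv.Perm Y) : Module.End (ZMod 2) (Y → ZMod 2) :=
  LinearMap.funLeft (ZMod 2) (ZMod 2) σ

lemma shift_pow {Y : Type} (σ : Equiv.Perm Y) (n : ℕ) (c : Y → ZMod 2) (y : Y) :
    ((shift σ) ^ n) c y = c ((σ ^ n) y) := by
  induction n generalizing c y with
  | zero => simp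
  | succ n ih =>
    rw [pow_succ, Module.End.mul_apply, ih, pow_succ']
    rfl

lemma aeval_shift {Y : Type} (σ : Equiv.Perm Y) (R : (ZMod 2)[X]) (n : ℕ) (h : R.natDegree < n)
    (c : Y → ZMod 2) (y : Y) :
    (aeval (shift σ) R) c y = ∑ i ∈ Finset.range n, R.coeff i * c ((σ ^ i) y) := by
  rw [aeval_eq_sum_range' h, LinearMap.sum_apply, Finset.sum_apply]
  refine Finset.sum_congr rfl fun i _ => ?_
  rw [LinearMap.smul_apply, Pi.smul_apply, shift_pow, smul_eq_mul]

lemma sum_support {Y : Type} (σ : Equiv.Perm Y) (P : (ZMod 2)[X]) (c : Y → ZMod 2) (y : Y) :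
    ∑ j ∈ P.support, c ((σ ^ j) y) = (aeval (shift σ) P) c y := by
  rw [aeval_def, eval₂_eq_sum, Polynomial.sum, LinearMap.sum_apply, Finset.sum_apply]
  refine Finset.sum_congr rfl fun j hj => ?_
  have h1 : P.coeff j = 1 := by
    have h0 : P.coeff j ≠ 0 := mem_support_iff.1 hj
    revert h0
    generalize P.coeff j = u
    revert u
    decide
  rw [h1, map_one, one_mul, shift_pow]

/-- Points in different orbits of length `m`. -/
lemma exists_points {Y : Type} [Finite Y] (σ : Equiv.Perm Y) (m s₀ : ℕ) (hm : 0 < m)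
    (hσ : σ ^ m = 1) (hc : m * s₀ ≤ {y : Y | ∀ i, 0 < i → i < m → (σ ^ i) y ≠ y}.ncard) :
    ∀ l ≤ s₀, ∃ t : Finset Y, t.card = l ∧ (∀ y ∈ t, ∀ i, 0 < i → i < m → (σ ^ i) y ≠ y) ∧
      ∀ y ∈ t, ∀ y' ∈ t, ∀ i < m, (σ ^ i) y = y' → y = y' := by
  classical
  have := Fintype.ofFinite Y
  intro l
  induction l with
  | zero => intro _; exact ⟨∅, by simp, by simp, by simp⟩
  | succ l ih =>
    intro hl
    obtain ⟨t, h1, h2, h3⟩ := ih (by omega)
    set B : Finset Y := t.biUnion fun y => (Finset.range m).image fun i => (σ ^ i) y with hB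
    have hBc : B.card ≤ t.card * m := by
      refine Finset.card_biUnion_le_card_mul _ _ _ fun y _ => ?_
      exact Finset.card_image_le.trans (by simp)
    have hlt : (B : Set Y).ncard < {y : Y | ∀ i, 0 < i → i < m → (σ ^ i) y ≠ y}.ncard := by
      rw [Set.ncard_coe_finset]
      refine lt_of_lt_of_le ?_ hc
      refine lt_of_le_of_lt hBc ?_
      rw [h1, mul_comm]
      exact Nat.mul_lt_mul_of_pos_left (by omega) hm
    obtain ⟨y, hy, hyB⟩ := Set.exists_mem_notMem_of_ncard_lt_ncard hlt
    have hmem : ∀ y' ∈ t, ∀ i < m, (σ ^ i) y' ≠ y := by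
      intro y' hy' i hi he
      apply hyB
      rw [Finset.mem_coe, hB, Finset.mem_biUnion]
      exact ⟨y', hy', Finset.mem_image.2 ⟨i, Finset.mem_range.2 hi, he⟩⟩
    have hyt : y ∉ t := fun h => hmem y h 0 hm (by simp)
    refine ⟨insert y t, by rw [Finset.card_insert_of_notMem hyt, h1], ?_, ?_⟩
    · intro z hz
      rcases Finset.mem_insert.1 hz with rfl | hz
      · exact hy
      · exact h2 z hz
    · intro a ha b hb i hi hab
      rcases Finset.mem_insert.1 ha with ha' | ha'
      · rcases Finset.mem_insert.1 hb with hb' | hb'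
        · rw [ha', hb']
        · exfalso
          rw [ha'] at hab
          rcases Nat.eq_zero_or_pos i with h0 | h0
          · subst h0
            apply hmem b hb' 0 hm
            simpa using hab.symm
          · apply hmem b hb' (m - i) (by omega)
            rw [← hab, ← Equiv.Perm.mul_apply, ← pow_add, Nat.sub_add_cancel hi.le, hσ]
            rfl
      · rcases Finset.mem_insert.1 hb with hb' | hb'
        · rw [hb'] at hab
          exact absurd hab (hmem a ha' i hi)
        · exact h3 a ha' b hb' i hi hab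

theorem s_prm : S_PRM := by
  intro k _ _ m ζ Φ P hP Y _ σ s₀ hσ hcard
  classical
  have := Fintype.ofFinite Y
  have hm : 0 < m := by have := hP.one_lt; omega
  obtain ⟨Q, hQ⟩ := hP.dvdP
  have hne : (X ^ m - 1 : (ZMod 2)[X]) ≠ 0 := X_pow_sub_C_ne_zero (R := ZMod 2) hm 1
  have hP0 : P ≠ 0 := hP.irr.ne_zero
  have hQ0 : Q ≠ 0 := by rintro rfl; apply hne; rw [hQ, mul_zero]
  have hdeg : P.natDegree + Q.natDegree = m := by
    rw [← natDegree_mul hP0 hQ0, ← hQ]
    exact natDegree_X_pow_sub_C (r := (1 : ZMod 2))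
  obtain ⟨t, ht1, ht2, ht3⟩ := exists_points σ m s₀ hm hσ hcard s₀ le_rfl
  set d := P.natDegree with hd
  have hd2 : 0 < d := by have := hP.two_le; omega
  -- polynomials
  let hp : (Fin d → ZMod 2) → (ZMod 2)[X] := fun a => ∑ i : Fin d, C (a i) * X ^ (i : ℕ)
  have hp_deg : ∀ a, (hp a).natDegree < d := by
    intro a
    refine lt_of_le_of_lt (natDegree_sum_le_of_forall_le (n := d - 1) _ _ ?_) (by omega)
    intro i _
    refine (natDegree_C_mul_X_pow_le _ _).trans ?_
    have := i.2
    omega
  have hp_coeff : ∀ a (i : Fin d), (hp a).coeff i = a i := by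
    intro a i
    show (∑ j : Fin d, C (a j) * X ^ (j : ℕ)).coeff (i : ℕ) = a i
    rw [finsetSum_coeff, Finset.sum_eq_single i]
    · rw [coeff_C_mul, coeff_X_pow]; simp
    · intro j _ hj
      rw [coeff_C_mul, coeff_X_pow, if_neg, mul_zero]
      intro h
      exact hj (Fin.ext h.symm)
    · intro h; exact absurd (Finset.mem_univ i) h
  have hpQ : ∀ a, (hp a * Q).natDegree < m := by
    intro a
    refine lt_of_le_of_lt natDegree_mul_le ?_
    have := hp_deg a
    omega
  let Ψ : (t → Fin d → ZMod 2) → (Y → ZMod 2) := fun a =>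
    ∑ l : t, (aeval (shift σ) (hp (a l) * Q)) (Pi.single (l : Y) 1)
  -- the values
  have hval : ∀ (a : t → Fin d → ZMod 2) (l : t) (i : ℕ), i < m → ∀ y, (σ ^ i) y = l →
      Ψ a y = (hp (a l) * Q).coeff i := by
    intro a l i hi y hy
    show (∑ l' : t, (aeval (shift σ) (hp (a l') * Q)) (Pi.single (l' : Y) 1)) y = _
    rw [Finset.sum_apply]
    have key : ∀ (l' : t) (n : ℕ), n < m → (σ ^ n) y = l' → l' = l ∧ n = i := by
      intro l' n hn hn'
      rcases le_total i n with hin | hin
      · have h1 : (σ ^ (n - i)) (l : Y) = l' := by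
          rw [← hy, ← Equiv.Perm.mul_apply, ← pow_add, Nat.sub_add_cancel hin, hn']
        have h2 : (l : Y) = l' := ht3 l l.2 l' l'.2 (n - i) (by omega) h1
        refine ⟨Subtype.ext h2.symm, ?_⟩
        by_contra hne
        exact ht2 l l.2 (n - i) (by omega) (by omega) (h1.trans h2.symm)
      · have h1 : (σ ^ (i - n)) (l' : Y) = l := by
          rw [← hn', ← Equiv.Perm.mul_apply, ← pow_add, Nat.sub_add_cancel hin, hy]
        have h2 : (l' : Y) = l := ht3 l' l'.2 l l.2 (i - n) (by omega) h1
        refine ⟨Subtype.ext h2, ?_⟩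
        by_contra hne
        exact ht2 l' l'.2 (i - n) (by omega) (by omega) (h1.trans h2.symm)
    rw [Finset.sum_eq_single l]
    · rw [aeval_shift σ _ m (hpQ _), Finset.sum_eq_single i]
      · rw [hy, Pi.single_eq_same, mul_one]
      · intro n hn hne
        rw [Pi.single_eq_of_ne, mul_zero]
        intro h
        exact hne (key l n (Finset.mem_range.1 hn) h).2
      · intro h; exact absurd (Finset.mem_range.2 hi) h
    · intro l' _ hl'
      rw [aeval_shift σ _ m (hpQ _)]
      refine Finset.sum_eq_zero fun n hn => ?_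
      rw [Pi.single_eq_of_ne, mul_zero]
      intro h
      exact hl' (key l' n (Finset.mem_range.1 hn) h).1
    · intro h; exact absurd (Finset.mem_univ l) h
  have hinj : Function.Injective Ψ := by
    intro a b hab
    funext l
    have h1 : hp (a l) * Q = hp (b l) * Q := by
      ext i
      by_cases hi : i < m
      · obtain ⟨y, hy⟩ := (σ ^ i).surjective (l : Y)
        rw [← hval a l i hi y hy, ← hval b l i hi y hy, hab]
      · rw [coeff_eq_zero_of_natDegree_lt (lt_of_lt_of_le (hpQ _) (by omega)),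
          coeff_eq_zero_of_natDegree_lt (lt_of_lt_of_le (hpQ _) (by omega))]
    have h2 : hp (a l) = hp (b l) := mul_right_cancel₀ hQ0 h1
    funext i
    rw [← hp_coeff (a l) i, ← hp_coeff (b l) i, h2]
  refine ⟨Finset.univ.image Ψ, ?_, ?_⟩
  · rw [Finset.card_image_of_injective _ hinj, Finset.card_univ, Fintype.card_fun,
      Fintype.card_fun, ZMod.card, Fintype.card_fin, Fintype.card_coe, ht1, ← pow_mul]
  · intro c hc y
    obtain ⟨a, _, rfl⟩ := Finset.mem_image.1 hc
    rw [sum_support]
    show (aeval (shift σ) P) (∑ l : t, (aeval (shift σ) (hp (a l) * Q)) (Pi.single (l : Y) 1)) y = 0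
    rw [map_sum, Finset.sum_apply]
    refine Finset.sum_eq_zero fun l _ => ?_
    rw [← Module.End.mul_apply, ← map_mul]
    have h1 : P * (hp (a l) * Q) = hp (a l) * (X ^ m - 1) := by rw [hQ]; ring
    rw [h1, map_mul, map_sub, map_pow, aeval_X, map_one]
    have h2 : shift σ ^ m = 1 := by
      refine LinearMap.ext fun c => funext fun z => ?_
      rw [shift_pow, hσ]; rfl
    rw [h2, sub_self, mul_zero]; rfl

end Pool.Agent.Helper56.RS
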