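import Pool.Agent.Helper36.RS.Goals

/-!
# Project RF, existence part: the graded spaces
-/

namespace Pool.Agent.Helper56.RS

open Set Filter Topology MeasureTheory Pool.Agent.Helper47.RF Pool.Agent.Helper36.EV
open Pool.Agent.Helper36.RS
open scoped ContDiff

/-- Equality away from the quaternion `0`. -/
def EqO (u v : XS) : Prop := ∀ x ≠ 0, u.1 x = v.1 x

lemma integ_congr {f h : HH → ℝ} (hfh : ∀ x ≠ 0, f x = h x) : integ f = integ h := by
  unfold integ
  congr 1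
  have h0 : ∀ᵐ x : HH ∂(volume.restrict (Metric.ball (0 : HH) 1)), x ≠ 0 := by
    apply ae_restrict_of_ae
    rw [ae_iff]
    have : {a : HH | ¬ a ≠ 0} = {0} := by
      ext a
      simp
    rw [this]
    exact measure_singleton _
  refine integral_congr_ae ?_
  filter_upwards [h0] with x hx
  exact hfh x hx

lemma ip_congr {u u' v v' : XS} (hu : EqO u u') (hv : EqO v v') : ip u v = ip u' v' := by
  rw [ip_apply, ip_apply]
  exact integ_congr fun x hx => by rw [hu x hx, hv x hx]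

lemma EqO.ed {u v : XS} (h : EqO u v) (i : Fin 3) : EqO (Ed i u) (Ed i v) := by
  intro x hx
  rw [Ed_apply, Ed_apply]
  unfold E
  have h1 : u.1 =ᶠ[𝓝 x] v.1 := by
    have h2 : ({0}ᶜ : Set HH) ∈ 𝓝 x := isOpen_compl_singleton.mem_nhds hx
    filter_upwards [h2] with y hy
    exact h y hy
  rw [h1.fderiv_eq]

lemma EqO.refl (u : XS) : EqO u u := fun _ _ => rfl

lemma EqO.sub {u u' v v' : XS} (hu : EqO u u') (hv : EqO v v') : EqO (u - v) (u' - v') := by
  intro x hx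
  show u.1 x - v.1 x = u'.1 x - v'.1 x
  rw [hu x hx, hv x hx]

/-- Commutation with words. -/
lemma wd_comm {J : LL →ₗ[ℝ] XS}
    (hJ : ∀ i u, ∀ x ≠ 0, (Ed i (J (io u))).1 x = (J (io (Ed i u))).1 x)
    (w : List (Fin 3)) (u : XS) : EqO (Wd w (J (io u))) (J (io (Wd w u))) := by
  induction w with
  | nil => exact EqO.refl _
  | cons i w ih =>
    intro x hx
    rw [Wd_cons, Wd_cons, ih.ed i x hx, hJ i (Wd w u) x hx]

lemma bf_sym {J : LL →ₗ[ℝ] XS}
    (hJ : ∀ i u, ∀ x ≠ 0, (Ed i (J (io u))).1 x = (J (io (Ed i u))).1 x)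
    (hs : ∀ u v, ip (J (io u)) v = ip u (J (io v))) (m : ℕ) (u v : XS) :
    bf m (J (io u)) v = bf m u (J (io v)) := by
  rw [bf_apply, bf_apply]
  refine Finset.sum_congr rfl fun w _ => ?_
  rw [ip_congr (wd_comm hJ w u) (EqO.refl _), hs, ip_congr (EqO.refl _) (wd_comm hJ w v)]

lemma sn_con {J : LL →ₗ[ℝ] XS}
    (hJ : ∀ i u, ∀ x ≠ 0, (Ed i (J (io u))).1 x = (J (io (Ed i u))).1 x)
    (hc : ∀ u, ip (J (io u)) (J (io u)) ≤ ip u u) (m : ℕ) (u : XS) :
    sn m (J (io u)) ≤ sn m u := by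
  rw [sn_eq, sn_eq]
  refine Finset.sum_le_sum fun w _ => ?_
  rw [ip_congr (wd_comm hJ w u) (wd_comm hJ w u)]
  exact hc _

lemma sum_words (m : ℕ) (u : XS) :
    ∑ w ∈ Wle m, ∑ i, ip (Ed i (Wd w u)) (Ed i (Wd w u)) ≤ sn (m + 1) u := by
  rw [sn_eq]
  have h1 : ∑ w ∈ Wle m, ∑ i, ip (Ed i (Wd w u)) (Ed i (Wd w u)) =
      ∑ w ∈ ((Wle m) ×ˢ (Finset.univ : Finset (Fin 3))).image (fun p => p.2 :: p.1),
        ip (Wd w u) (Wd w u) := by
    rw [Finset.sum_image]
    · rw [Finset.sum_product]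
      rfl
    · intro a _ b _ hab
      have h2 := List.cons.inj hab
      exact Prod.ext h2.2 h2.1
  rw [h1]
  refine Finset.sum_le_sum_of_subset_of_nonneg (fun w hw => ?_) fun w _ _ => ip_nonneg _
  rw [Finset.mem_image] at hw
  obtain ⟨p, hp, rfl⟩ := hw
  rw [Finset.mem_product] at hp
  rw [mem_Wle]
  have := mem_Wle.1 hp.1
  simp only [List.length_cons]
  omega

lemma sn_err {J : LL →ₗ[ℝ] XS} {e : ℝ}
    (hJ : ∀ i u, ∀ x ≠ 0, (Ed i (J (io u))).1 x = (J (io (Ed i u))).1 x)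
    (he : ∀ u, ip (J (io u) - u) (J (io u) - u) ≤ e ^ 2 * ∑ i, ip (Ed i u) (Ed i u))
    (m : ℕ) (u : XS) : sn m (J (io u) - u) ≤ e ^ 2 * sn (m + 1) u := by
  have h1 : sn m (J (io u) - u) ≤
      e ^ 2 * ∑ w ∈ Wle m, ∑ i, ip (Ed i (Wd w u)) (Ed i (Wd w u)) := by
    rw [sn_eq, Finset.mul_sum]
    refine Finset.sum_le_sum fun w _ => ?_
    have h2 : EqO (Wd w (J (io u) - u)) (J (io (Wd w u)) - Wd w u) := by
      rw [map_sub]
      exact (wd_comm hJ w u).sub (EqO.refl _)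
    rw [ip_congr h2 h2]
    exact he _
  exact h1.trans (mul_le_mul_of_nonneg_left (sum_words m u) (sq_nonneg _))

/-- The norm of `io u`. -/
lemma norm_io (u : XS) : ‖io u‖ ^ 2 ≤ ip u u := by
  have h1 : ‖io u‖ ^ 2 = ∫ x in Metric.ball (0 : HH) 1, u.1 x * u.1 x := by
    rw [← real_inner_self_eq_norm_sq, L2.inner_def]
    refine integral_congr_ae ?_
    have h2 : (io u : HH → ℝ) =ᵐ[volume.restrict (Metric.ball (0 : HH) 1)] u.1 :=
      (memLp_val u).coeFn_toLp
    filter_upwards [h2] with x hx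
    rw [hx]
    simp [sq]
  rw [h1, ip_apply, integ]
  have h3 : 0 ≤ ∫ x in Metric.ball (0 : HH) 1, u.1 x * u.1 x :=
    integral_nonneg fun x => mul_self_nonneg _
  linarith

lemma norm_pi_sq_le {ι : Type} [Fintype ι] (h : ι → LL) : ‖h‖ ^ 2 ≤ ∑ i, ‖h i‖ ^ 2 := by
  have h0 : 0 ≤ ∑ i, ‖h i‖ ^ 2 := Finset.sum_nonneg fun i _ => sq_nonneg _
  have h1 : ‖h‖ ≤ Real.sqrt (∑ i, ‖h i‖ ^ 2) := by
    rw [pi_norm_le_iff_of_nonneg (Real.sqrt_nonneg _)]
    intro i
    apply Real.le_sqrt_of_sq_le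
    exact Finset.single_le_sum (f := fun i => ‖h i‖ ^ 2) (fun i _ => sq_nonneg _)
      (Finset.mem_univ i)
  calc ‖h‖ ^ 2 ≤ Real.sqrt (∑ i, ‖h i‖ ^ 2) ^ 2 := by gcongr
    _ = _ := Real.sq_sqrt h0

section

variable {ι : Type} [Fintype ι] (κ : ι → ℕ)

/-- The forms. -/
noncomputable def BS (m : ℕ) : (ι → XS) →ₗ[ℝ] (ι → XS) →ₗ[ℝ] ℝ :=
  ∑ i, (bf (m + κ i)).compl₁₂ (LinearMap.proj i) (LinearMap.proj i)

lemma BS_apply (m : ℕ) (y z : ι → XS) : BS κ m y z = ∑ i, bf (m + κ i) (y i) (z i) := by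
  simp only [BS, LinearMap.sum_apply]
  rfl

lemma BS_self (m : ℕ) (y : ι → XS) : BS κ m y y = ∑ i, sn (m + κ i) (y i) := BS_apply κ m y y

lemma le_BS (m : ℕ) (y : ι → XS) (i : ι) : sn (m + κ i) (y i) ≤ BS κ m y y := by
  rw [BS_self]
  exact Finset.single_le_sum (f := fun i => sn (m + κ i) (y i)) (fun i _ => sn_nonneg _ _)
    (Finset.mem_univ i)

lemma BS_nonneg (m : ℕ) (y : ι → XS) : 0 ≤ BS κ m y y := by
  rw [BS_self]
  exact Finset.sum_nonneg fun i _ => sn_nonneg _ _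

/-- The map to `LL`. -/
noncomputable def ioS : (ι → XS) →ₗ[ℝ] (ι → LL) :=
  LinearMap.pi fun i => io ∘ₗ LinearMap.proj i

/-- The projections. -/
noncomputable def JS (J : LL →ₗ[ℝ] XS) : (ι → LL) →ₗ[ℝ] (ι → XS) :=
  LinearMap.pi fun i => J ∘ₗ LinearMap.proj i

end

theorem scy : G_SCY := by
  intro hPRJ hPOL hSOB hCMS ι _ κ
  obtain ⟨J, hJ, hs, hc, he, hb⟩ := hPRJ hPOL
  obtain ⟨hcomp, hint⟩ := hCMS hSOB
  choose Cb hCb using hb
  refine ⟨{ B := BS κ
            ι := ioS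
            J := fun n => JS (J n)
            ε := fun n => 1 / ((n : ℝ) + 1)
            symm := ?_
            nonneg := fun m x => BS_nonneg κ m x
            mono := ?_
            complete := ?_
            interp := ?_
            bι := ?_
            bJ := ?_
            symJ := ?_
            conJ := ?_
            errJ := ?_
            hε := tendsto_one_div_add_atTop_nhds_zero_nat }, fun m y z => BS_apply κ m y z⟩
  · intro m x y
    rw [BS_apply, BS_apply]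
    exact Finset.sum_congr rfl fun i _ => bf_comm _ _ _
  · intro m x
    rw [BS_self, BS_self]
    exact Finset.sum_le_sum fun i _ => sn_mono (by omega) _
  · intro x hx
    have h1 : ∀ i, ∃ y, ∀ m, Tendsto (fun n => sn m (x n i - y)) atTop (𝓝 0) := by
      intro i
      apply hcomp (fun n => x n i)
      intro m δ hδ
      obtain ⟨n0, h0⟩ := hx m δ hδ
      refine ⟨n0, fun n hn k hk => ?_⟩
      refine ((sn_mono (by omega) _).trans (le_BS κ m (x n - x k) i)).trans (h0 n hn k hk)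
    choose y hy using h1
    refine ⟨y, fun m => ?_⟩
    have h2 := tendsto_finsetSum (Finset.univ : Finset ι) (fun i _ => hy i (m + κ i))
    rw [Finset.sum_const_zero] at h2
    refine h2.congr fun n => ?_
    rw [BS_self]
    rfl
  · intro m
    choose C hC using hint
    refine ⟨2 * m + ∑ i, κ i, (Fintype.card ι : ℝ) * ∑ i, |C (m + κ i)|, fun x => ?_⟩
    set A := BS κ 0 x x with hA
    set B' := BS κ (2 * m + ∑ i, κ i) x x with hB
    have hA0 : 0 ≤ A := BS_nonneg κ 0 x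
    have hB0 : 0 ≤ B' := BS_nonneg κ _ x
    have h1 : ∀ i, sn (m + κ i) (x i) ^ 2 ≤ |C (m + κ i)| * (A * B') := by
      intro i
      have e1 := hC (m + κ i) (x i)
      have e2 : sn 0 (x i) ≤ A := (sn_mono (Nat.zero_le _) _).trans (le_BS κ 0 x i)
      have hκ : κ i ≤ ∑ i, κ i := Finset.single_le_sum (fun i _ => Nat.zero_le _)
        (Finset.mem_univ i)
      have e3 : sn (2 * (m + κ i)) (x i) ≤ B' :=
        (sn_mono (by omega) _).trans (le_BS κ (2 * m + ∑ i, κ i) x i)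
      have e4 : C (m + κ i) * sn 0 (x i) * sn (2 * (m + κ i)) (x i) ≤
          |C (m + κ i)| * (sn 0 (x i) * sn (2 * (m + κ i)) (x i)) := by
        rw [mul_assoc]
        exact mul_le_mul_of_nonneg_right (le_abs_self _)
          (mul_nonneg (sn_nonneg _ _) (sn_nonneg _ _))
      have e5 : sn 0 (x i) * sn (2 * (m + κ i)) (x i) ≤ A * B' :=
        mul_le_mul e2 e3 (sn_nonneg _ _) hA0
      exact (e1.trans e4).trans (mul_le_mul_of_nonneg_left e5 (abs_nonneg _))
    have h2 := sq_sum_le_card_mul_sum_sq (s := (Finset.univ : Finset ι))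
      (f := fun i => sn (m + κ i) (x i))
    rw [← BS_self] at h2
    have h3 : ∑ i, sn (m + κ i) (x i) ^ 2 ≤ (∑ i, |C (m + κ i)|) * (A * B') := by
      rw [Finset.sum_mul]
      exact Finset.sum_le_sum fun i _ => h1 i
    have h4 : (0 : ℝ) ≤ Fintype.card ι := Nat.cast_nonneg _
    calc BS κ m x x ^ 2 ≤ (Fintype.card ι : ℝ) * ∑ i, sn (m + κ i) (x i) ^ 2 := by
          simpa using h2
      _ ≤ (Fintype.card ι : ℝ) * ((∑ i, |C (m + κ i)|) * (A * B')) :=
          mul_le_mul_of_nonneg_left h3 h4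
      _ = (Fintype.card ι : ℝ) * (∑ i, |C (m + κ i)|) * A * B' := by ring
  · refine ⟨1, fun x => ?_⟩
    rw [one_mul, BS_self]
    refine (norm_pi_sq_le _).trans (Finset.sum_le_sum fun i _ => ?_)
    refine (norm_io (x i)).trans ?_
    rw [← sn_zero]
    exact sn_mono (Nat.zero_le _) _
  · intro n m
    refine ⟨∑ i, |Cb n (m + κ i)|, fun h => ?_⟩
    rw [BS_self, Finset.sum_mul]
    refine Finset.sum_le_sum fun i _ => ?_
    have e1 : sn (m + κ i) (JS (J n) h i) ≤ Cb n (m + κ i) * ‖h i‖ ^ 2 := hCb n (m + κ i) (h i)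
    have e2 : ‖h i‖ ≤ ‖h‖ := norm_le_pi_norm h i
    calc sn (m + κ i) (JS (J n) h i) ≤ Cb n (m + κ i) * ‖h i‖ ^ 2 := e1
      _ ≤ |Cb n (m + κ i)| * ‖h i‖ ^ 2 :=
          mul_le_mul_of_nonneg_right (le_abs_self _) (sq_nonneg _)
      _ ≤ |Cb n (m + κ i)| * ‖h‖ ^ 2 := by gcongr
  · intro n m x y
    rw [BS_apply, BS_apply]
    exact Finset.sum_congr rfl fun i _ => bf_sym (hJ n) (hs n) _ _ _
  · intro n m x
    rw [BS_self, BS_self]
    exact Finset.sum_le_sum fun i _ => sn_con (hJ n) (hc n) _ _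
  · intro n m x
    rw [BS_self, BS_self, Finset.mul_sum]
    refine Finset.sum_le_sum fun i _ => ?_
    have h1 := sn_err (hJ n) (he n) (m + κ i) (x i)
    rw [show m + κ i + 1 = m + 1 + κ i by omega] at h1
    exact h1

end Pool.Agent.Helper56.RS
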